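import Mathlib

set_option autoImplicit false

open Set Filter Topology

namespace Pool.Agent.Results.MP_b40933_gt.PerfectImageWDelta

/-- A space is a wDelta-space if it has a sequence of open covers `G n` such that every sequence
`s` with `s n` in the star of a point `x` with respect to `G n`, for all `n`, has a cluster
point. -/
def IsWDelta (X : Type) [TopologicalSpace X] : Prop :=
  ∃ G : ℕ → Set (Set X), (∀ n, ∀ U ∈ G n, IsOpen U) ∧ (∀ n, ⋃₀ (G n) = univ) ∧
    ∀ x : X, ∀ s : ℕ → X, (∀ n, ∃ U ∈ G n, x ∈ U ∧ s n ∈ U) → ∃ p, MapClusterPt p atTop s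

/-- Perfect maps: continuous closed surjections with compact fibres. -/
def IsPerfectMap {X Y : Type} [TopologicalSpace X] [TopologicalSpace Y] (f : X → Y) : Prop :=
  Continuous f ∧ IsClosedMap f ∧ Function.Surjective f ∧ ∀ y, IsCompact (f ⁻¹' {y})

/-! ### The first uncountable ordinal as a type -/

/-- The first uncountable ordinal. -/
def W : Type := (Cardinal.aleph 1).ord.ToType

noncomputable instance : LinearOrder W :=
  inferInstanceAs (LinearOrder (Cardinal.aleph 1).ord.ToType)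

instance : WellFoundedLT W :=
  inferInstanceAs (WellFoundedLT (Cardinal.aleph 1).ord.ToType)

theorem mk_W : Cardinal.mk W = Cardinal.aleph 1 := by
  simp [W]

theorem countable_Iic (a : W) : (Iic a).Countable := by
  have h1 : (Iio a).Countable := by
    rw [← Cardinal.le_aleph0_iff_set_countable]
    have h2 : Cardinal.mk (Iio a) < Cardinal.mk W :=
      Cardinal.mk_Iio_lt (α := (Cardinal.aleph 1).ord.ToType) a (by simp)
    have h3 : Cardinal.mk W = Order.succ Cardinal.aleph0 := by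
      rw [Cardinal.succ_aleph0]; exact mk_W
    exact Order.lt_succ_iff.1 (h2.trans_le h3.le)
  refine (h1.union (countable_singleton a)).mono ?_
  intro b hb
  rcases lt_or_eq_of_le (show b ≤ a from hb) with h | h
  · exact Or.inl h
  · exact Or.inr h

theorem bdd (u : ℕ → W) : ∃ b, ∀ n, u n < b := by
  by_contra hcon
  push Not at hcon
  have h : (univ : Set W) ⊆ ⋃ n, Iic (u n) := by
    intro b _
    obtain ⟨n, hn⟩ := hcon b
    exact mem_iUnion.2 ⟨n, hn⟩
  have h2 : (univ : Set W).Countable := (countable_iUnion fun n => countable_Iic (u n)).mono h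
  rw [Set.countable_univ_iff, ← Cardinal.mk_le_aleph0_iff, mk_W] at h2
  exact absurd Cardinal.aleph0_lt_aleph_one (not_lt.2 h2)

instance : Nonempty W := by
  rw [← Cardinal.mk_ne_zero_iff, mk_W]
  exact (Cardinal.aleph_pos 1).ne'

noncomputable instance : OrderBot W := WellFoundedLT.toOrderBot W

instance : NoMaxOrder W := ⟨fun a => by
  obtain ⟨b, hb⟩ := bdd fun _ => a
  exact ⟨b, hb 0⟩⟩

noncomputable instance : SuccOrder W := SuccOrder.ofLinearWellFoundedLT W

noncomputable instance : TopologicalSpace W := Preorder.topology W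

instance : OrderTopology W := ⟨rfl⟩

/-- The successor of `a`. -/
noncomputable def S (a : W) : W := Order.succ a

theorem lt_S (a : W) : a < S a := Order.lt_succ a

theorem S_le {a b : W} (h : a < b) : S a ≤ b := Order.succ_le_of_lt h

theorem lt_S_iff {a b : W} : a < S b ↔ a ≤ b := Order.lt_succ_iff

theorem S_inj {a b : W} (h : S a = S b) : a = b := Order.succ_injective h

theorem isOpen_S (a : W) : IsOpen ({S a} : Set W) := by
  have : ({S a} : Set W) = Ioo a (S (S a)) := by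
    ext b
    simp only [mem_singleton_iff, mem_Ioo]
    constructor
    · rintro rfl
      exact ⟨lt_S _, lt_S _⟩
    · rintro ⟨h1, h2⟩
      exact le_antisymm (lt_S_iff.1 h2) (S_le h1)
  rw [this]
  exact isOpen_Ioo

theorem isCompact_Iic (a : W) : IsCompact (Iic a) := by
  let _ := WellFoundedLT.conditionallyCompleteLinearOrderBot W
  have h : (Iic a : Set W) = Icc ⊥ a := by
    ext b
    simp
  rw [h]
  exact isCompact_Icc

/-- The least strict upper bound of the values of `u`. -/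
noncomputable def ssup (u : ℕ → W) : W :=
  WellFounded.min (wellFounded_lt : WellFounded ((· < ·) : W → W → Prop))
    {b | ∀ n, u n < b} (bdd u)

theorem lt_ssup (u : ℕ → W) (n : ℕ) : u n < ssup u :=
  WellFounded.min_mem (wellFounded_lt : WellFounded ((· < ·) : W → W → Prop))
    {b | ∀ n, u n < b} (bdd u) n

theorem ssup_le {u : ℕ → W} {b : W} (h : ∀ n, u n < b) : ssup u ≤ b := by
  by_contra hcon
  exact WellFounded.not_lt_min (wellFounded_lt : WellFounded ((· < ·) : W → W → Prop))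
    {b | ∀ n, u n < b} (show b ∈ {b | ∀ n, u n < b} from h) (not_le.1 hcon)

theorem bot_lt_ssup (u : ℕ → W) : ⊥ < ssup u := lt_of_le_of_lt bot_le (lt_ssup u 0)

/-- A sequence in `W` has a least number that infinitely many terms do not exceed. -/
theorem exists_level (r : ℕ → W) : ∃ a, (∃ᶠ n in atTop, r n ≤ a) ∧
    ∀ b < a, ∃ᶠ n in atTop, b < r n ∧ r n ≤ a := by
  have hne : {a | ∃ᶠ n in atTop, r n ≤ a}.Nonempty := by
    obtain ⟨b, hb⟩ := bdd r
    exact ⟨b, (Eventually.of_forall fun n => (hb n).le).frequently⟩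
  obtain ⟨a, ha, hmin⟩ := WellFounded.has_min
    (wellFounded_lt : WellFounded ((· < ·) : W → W → Prop)) _ hne
  refine ⟨a, ha, fun b hb => ?_⟩
  have h1 : ∀ᶠ n in atTop, ¬ r n ≤ b := by
    by_contra hcon
    exact hmin b (by simpa [Filter.Frequently] using hcon) hb
  exact (ha.and_eventually h1).mono fun n hn => ⟨not_le.1 hn.2, hn.1⟩

/-! ### The points -/

/-- The nodes of the tree of finite sequences in `W`. -/
structure Nd : Type where
  len : ℕ
  seq : ℕ → W
  bot : ∀ i, len ≤ i → seq i = ⊥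

/-- The pairs of a sequence in `W` and an upper bound of it. -/
abbrev C : Type := {p : (ℕ → W) × W // ∀ i, p.1 i ≤ p.2}

/-- `u` agrees with `x` below `m`. -/
def Ext (x : ℕ → W) (m : ℕ) (u : ℕ → W) : Prop := ∀ i < m, u i = x i

/-- The first values of `w` are the successors of the values of `t`. -/
def In (t : Nd) (w : ℕ → W) : Prop := ∀ i < t.len, w i = S (t.seq i)

/-- The nodes that occur in the basic neighbourhoods of the points `pi a x`. -/
def Gd (x : ℕ → W) (m : ℕ) (b a : W) (u : Nd) : Prop :=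
  m ≤ u.len ∧ Ext x m u.seq ∧ b < ssup u.seq ∧ ssup u.seq ≤ a

/-- The points of the space `Y`. -/
inductive Pt : Type
  | nd (t : Nd) : Pt
  | pi (a : W) (x : ℕ → W) (h : ssup x ≤ a) : Pt
  | col (t : Nd) (j : W) : Pt
  | e (x : ℕ → W) (a : W) (h : ssup x < a) : Pt
  | c (p : C) : Pt

/-- Basic neighbourhoods of nodes. -/
def BU (t : Nd) (z : W) : Set Pt := fun q => match q with
  | .nd u => u = t
  | .pi _ _ _ => False
  | .col u j => u = t ∧ z < j
  | .e _ _ _ => False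
  | .c p => In t p.1.1 ∧ z < p.1.1 t.len

/-- Basic neighbourhoods of the points `pi a x`. -/
def BN (a : W) (x : ℕ → W) (b : W) (m : ℕ) (z : W) : Set Pt := fun q => match q with
  | .nd u => Gd x m b a u
  | .pi a' w _ => Ext x m w ∧ b < a' ∧ a' ≤ a
  | .col u j => Gd x m b a u ∧ z < j
  | .e _ _ _ => False
  | .c p => ∃ u : Nd, Gd x m b a u ∧ In u p.1.1 ∧ z < p.1.1 u.len

/-- Basic neighbourhoods of the points `e x a`. -/
def BE (x : ℕ → W) (a l : W) (m : ℕ) : Set Pt := fun q => match q with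
  | .nd _ => False
  | .pi _ _ _ => False
  | .col u j => (m ≤ u.len ∧ Ext x m u.seq) ∧ l < j ∧ j ≤ a
  | .e y a' _ => y = x ∧ l < a' ∧ a' ≤ a
  | .c _ => False

theorem BU_mono {t : Nd} {z z' : W} (h : z ≤ z') : BU t z' ⊆ BU t z := by
  rintro (u | ⟨a, x, _⟩ | ⟨u, j⟩ | ⟨x, a, _⟩ | p) hq
  · exact hq
  · exact hq
  · exact ⟨hq.1, lt_of_le_of_lt h hq.2⟩
  · exact hq
  · exact ⟨hq.1, lt_of_le_of_lt h hq.2⟩

theorem Gd_mono {x : ℕ → W} {a b b' : W} {m m' : ℕ} {u : Nd} (hb : b ≤ b') (hm : m ≤ m')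
    (h : Gd x m' b' a u) : Gd x m b a u :=
  ⟨hm.trans h.1, fun i hi => h.2.1 i (lt_of_lt_of_le hi hm), lt_of_le_of_lt hb h.2.2.1, h.2.2.2⟩

theorem BN_mono {a : W} {x : ℕ → W} {b b' z z' : W} {m m' : ℕ} (hb : b ≤ b') (hm : m ≤ m')
    (hz : z ≤ z') : BN a x b' m' z' ⊆ BN a x b m z := by
  rintro (u | ⟨a', w, _⟩ | ⟨u, j⟩ | ⟨x, a, _⟩ | p) hq
  · exact Gd_mono hb hm hq
  · exact ⟨fun i hi => hq.1 i (lt_of_lt_of_le hi hm), lt_of_le_of_lt hb hq.2.1, hq.2.2⟩
  · exact ⟨Gd_mono hb hm hq.1, lt_of_le_of_lt hz hq.2⟩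
  · exact hq
  · obtain ⟨u, h1, h2, h3⟩ := hq
    exact ⟨u, Gd_mono hb hm h1, h2, lt_of_le_of_lt hz h3⟩

theorem BE_mono {x : ℕ → W} {a l l' : W} {m m' : ℕ} (hl : l ≤ l') (hm : m ≤ m') :
    BE x a l' m' ⊆ BE x a l m := by
  rintro (u | ⟨a', w, _⟩ | ⟨u, j⟩ | ⟨y, a, _⟩ | p) hq
  · exact hq
  · exact hq
  · exact ⟨⟨hm.trans hq.1.1, fun i hi => hq.1.2 i (lt_of_lt_of_le hi hm)⟩,
      lt_of_le_of_lt hl hq.2.1, hq.2.2⟩
  · exact ⟨hq.1, lt_of_le_of_lt hl hq.2.1, hq.2.2⟩
  · exact hq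

/-- The open sets of the space `Y`. -/
def OpenPt (U : Set Pt) : Prop :=
  (∀ t, Pt.nd t ∈ U → ∃ z, BU t z ⊆ U) ∧
  (∀ a x h, Pt.pi a x h ∈ U → ∃ b < a, ∃ m z, BN a x b m z ⊆ U) ∧
  (∀ t j, ⊥ < j → Pt.col t j ∈ U → ∃ l < j, ∀ i, l < i → i ≤ j → Pt.col t i ∈ U) ∧
  (∀ x a h, Pt.e x a h ∈ U → ∃ l < a, ∃ m, BE x a l m ⊆ U) ∧
  IsOpen {p : C | Pt.c p ∈ U}

instance : TopologicalSpace Pt where
  IsOpen := OpenPt
  isOpen_univ := by
    refine ⟨fun t _ => ⟨⊥, subset_univ _⟩, fun a x h _ => ⟨⊥, ?_, 0, ⊥, subset_univ _⟩,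
      fun t j hj _ => ⟨⊥, hj, fun _ _ _ => mem_univ _⟩, fun x a h _ => ⟨_, h, 0, subset_univ _⟩, ?_⟩
    · exact lt_of_lt_of_le (bot_lt_ssup x) h
    · simp
  isOpen_inter := by
    rintro U V ⟨hU1, hU2, hU3, hU4, hU5⟩ ⟨hV1, hV2, hV3, hV4, hV5⟩
    refine ⟨?_, ?_, ?_, ?_, ?_⟩
    · rintro t ⟨h1, h2⟩
      obtain ⟨z, hz⟩ := hU1 t h1
      obtain ⟨z', hz'⟩ := hV1 t h2
      exact ⟨max z z', subset_inter ((BU_mono (le_max_left _ _)).trans hz)
        ((BU_mono (le_max_right _ _)).trans hz')⟩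
    · rintro a x h ⟨h1, h2⟩
      obtain ⟨b, hb, m, z, hz⟩ := hU2 a x h h1
      obtain ⟨b', hb', m', z', hz'⟩ := hV2 a x h h2
      exact ⟨max b b', max_lt hb hb', max m m', max z z', subset_inter
        ((BN_mono (le_max_left _ _) (le_max_left _ _) (le_max_left _ _)).trans hz)
        ((BN_mono (le_max_right _ _) (le_max_right _ _) (le_max_right _ _)).trans hz')⟩
    · rintro t j hj ⟨h1, h2⟩
      obtain ⟨l, hl, h⟩ := hU3 t j hj h1
      obtain ⟨l', hl', h'⟩ := hV3 t j hj h2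
      exact ⟨max l l', max_lt hl hl', fun i hi hij =>
        ⟨h i (lt_of_le_of_lt (le_max_left _ _) hi) hij,
          h' i (lt_of_le_of_lt (le_max_right _ _) hi) hij⟩⟩
    · rintro x a h ⟨h1, h2⟩
      obtain ⟨l, hl, m, hm⟩ := hU4 x a h h1
      obtain ⟨l', hl', m', hm'⟩ := hV4 x a h h2
      exact ⟨max l l', max_lt hl hl', max m m', subset_inter
        ((BE_mono (le_max_left _ _) (le_max_left _ _)).trans hm)
        ((BE_mono (le_max_right _ _) (le_max_right _ _)).trans hm')⟩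
    · exact hU5.inter hV5
  isOpen_sUnion := by
    intro 𝒰 h𝒰
    refine ⟨?_, ?_, ?_, ?_, ?_⟩
    · rintro t ⟨U, hU, h⟩
      obtain ⟨z, hz⟩ := (h𝒰 U hU).1 t h
      exact ⟨z, hz.trans (subset_sUnion_of_mem hU)⟩
    · rintro a x h0 ⟨U, hU, h⟩
      obtain ⟨b, hb, m, z, hz⟩ := (h𝒰 U hU).2.1 a x h0 h
      exact ⟨b, hb, m, z, hz.trans (subset_sUnion_of_mem hU)⟩
    · rintro t j hj ⟨U, hU, h⟩
      obtain ⟨l, hl, h'⟩ := (h𝒰 U hU).2.2.1 t j hj h
      exact ⟨l, hl, fun i hi hij => ⟨U, hU, h' i hi hij⟩⟩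
    · rintro x a h0 ⟨U, hU, h⟩
      obtain ⟨l, hl, m, h'⟩ := (h𝒰 U hU).2.2.2.1 x a h0 h
      exact ⟨l, hl, m, h'.trans (subset_sUnion_of_mem hU)⟩
    · have : {p : C | Pt.c p ∈ ⋃₀ 𝒰} = ⋃ U ∈ 𝒰, {p : C | Pt.c p ∈ U} := by
        ext p
        simp
      rw [this]
      exact isOpen_biUnion fun U hU => (h𝒰 U hU).2.2.2.2

theorem isOpen_def {U : Set Pt} : IsOpen U ↔ OpenPt U := Iff.rfl

/-! ### Basic open sets -/

theorem isOpen_In (t : Nd) (z : W) : IsOpen {p : C | In t p.1.1 ∧ z < p.1.1 t.len} := by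
  have hw : ∀ i, Continuous fun p : C => p.1.1 i := fun i =>
    (continuous_apply i).comp (continuous_fst.comp continuous_subtype_val)
  have h1 : {p : C | In t p.1.1 ∧ z < p.1.1 t.len} =
      (⋂ i ∈ Finset.range t.len, {p : C | p.1.1 i ∈ ({S (t.seq i)} : Set W)}) ∩
        {p : C | p.1.1 t.len ∈ Ioi z} := by
    ext p
    simp [In]
  rw [h1]
  refine IsOpen.inter ?_ (isOpen_Ioi.preimage (hw _))
  exact isOpen_biInter_finset fun i _ => (isOpen_S _).preimage (hw i)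

theorem isOpen_BU (t : Nd) (z : W) : IsOpen (BU t z) := by
  refine ⟨?_, ?_, ?_, ?_, ?_⟩
  · rintro u (rfl : u = t)
    exact ⟨z, subset_rfl⟩
  · rintro a x h hq
    exact hq.elim
  · rintro u j hj ⟨rfl, h⟩
    exact ⟨z, h, fun i hi _ => ⟨rfl, hi⟩⟩
  · rintro a x h hq
    exact hq.elim
  · exact isOpen_In t z

theorem isOpen_BN (a : W) (x : ℕ → W) (b : W) (m : ℕ) (z : W) : IsOpen (BN a x b m z) := by
  refine ⟨?_, ?_, ?_, ?_, ?_⟩
  · rintro u (hu : Gd x m b a u)
    refine ⟨z, ?_⟩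
    rintro (v | ⟨a', w, _⟩ | ⟨v, j⟩ | ⟨y, a', _⟩ | p) hq
    · obtain rfl : v = u := hq
      exact hu
    · exact hq.elim
    · obtain ⟨rfl, h⟩ := hq
      exact ⟨hu, h⟩
    · exact hq.elim
    · exact ⟨u, hu, hq⟩
  · rintro a' w h ⟨h1, h2, h3⟩
    refine ⟨b, h2, m, z, ?_⟩
    have key : ∀ u, Gd w m b a' u → Gd x m b a u := fun u hu =>
      ⟨hu.1, fun i hi => (hu.2.1 i hi).trans (h1 i hi), hu.2.2.1, hu.2.2.2.trans h3⟩
    rintro (v | ⟨a'', w', _⟩ | ⟨v, j⟩ | ⟨y, a'', _⟩ | p) hq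
    · exact key v hq
    · exact ⟨fun i hi => (hq.1 i hi).trans (h1 i hi), hq.2.1, hq.2.2.trans h3⟩
    · exact ⟨key v hq.1, hq.2⟩
    · exact hq.elim
    · obtain ⟨u, hu, hp⟩ := hq
      exact ⟨u, key u hu, hp⟩
  · rintro u j hj ⟨hu, h⟩
    exact ⟨z, h, fun i hi _ => ⟨hu, hi⟩⟩
  · rintro y a' h hq
    exact hq.elim
  · have : {p : C | Pt.c p ∈ BN a x b m z} =
        ⋃ u ∈ {u : Nd | Gd x m b a u}, {p : C | In u p.1.1 ∧ z < p.1.1 u.len} := by
      ext p
      simp only [mem_iUnion, exists_prop]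
      exact Iff.rfl
    rw [this]
    exact isOpen_biUnion fun u _ => isOpen_In u z

theorem isOpen_BE (x : ℕ → W) (a l : W) (m : ℕ) (hl : ssup x ≤ l) : IsOpen (BE x a l m) := by
  refine ⟨?_, ?_, ?_, ?_, ?_⟩
  · rintro u hq
    exact hq.elim
  · rintro a' w h hq
    exact hq.elim
  · rintro u j hj ⟨hu, h⟩
    exact ⟨l, h.1, fun i hi hij => ⟨hu, hi, hij.trans h.2⟩⟩
  · rintro y a' h ⟨rfl, h1, h2⟩
    refine ⟨l, h1, m, ?_⟩
    rintro (v | ⟨a'', w', _⟩ | ⟨v, j⟩ | ⟨y, a'', _⟩ | p) hq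
    · exact hq.elim
    · exact hq.elim
    · exact ⟨hq.1, hq.2.1, hq.2.2.trans h2⟩
    · exact ⟨hq.1, hq.2.1, hq.2.2.trans h2⟩
    · exact hq.elim
  · have : {p : C | Pt.c p ∈ BE x a l m} = ∅ := by
      ext p
      exact ⟨fun h => h.elim, fun h => h.elim⟩
    rw [this]
    exact isOpen_empty

/-- Sets of points of one column. -/
def BC (t : Nd) (A : Set W) : Set Pt := fun q => match q with
  | .nd _ => False
  | .pi _ _ _ => False
  | .col u j => u = t ∧ j ∈ A
  | .e _ _ _ => False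
  | .c _ => False

/-- Sets of points `c p`. -/
def BP (V : Set C) : Set Pt := fun q => match q with
  | .nd _ => False
  | .pi _ _ _ => False
  | .col _ _ => False
  | .e _ _ _ => False
  | .c p => p ∈ V

theorem isOpen_BC (t : Nd) (A : Set W) (hA : ∀ j ∈ A, ⊥ < j → ∃ l < j, ∀ i, l < i → i ≤ j → i ∈ A) :
    IsOpen (BC t A) := by
  refine ⟨fun _ h => h.elim, fun _ _ _ h => h.elim, ?_, fun _ _ _ h => h.elim, ?_⟩
  · rintro u j hj ⟨rfl, h⟩
    obtain ⟨l, hl, h'⟩ := hA j h hj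
    exact ⟨l, hl, fun i hi hij => ⟨rfl, h' i hi hij⟩⟩
  · have : {p : C | Pt.c p ∈ BC t A} = ∅ := by
      ext p
      exact ⟨fun h => h.elim, fun h => h.elim⟩
    rw [this]
    exact isOpen_empty

theorem isOpen_BC_Iic (t : Nd) (a : W) : IsOpen (BC t (Iic a)) :=
  isOpen_BC t _ fun _ hj h => ⟨⊥, h, fun _ _ hij => hij.trans hj⟩

theorem isOpen_BC_Ioi (t : Nd) (a : W) : IsOpen (BC t (Ioi a)) :=
  isOpen_BC t _ fun _ hj _ => ⟨a, hj, fun _ hi _ => hi⟩

theorem isOpen_BP {V : Set C} (hV : IsOpen V) : IsOpen (BP V) :=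
  ⟨fun _ h => h.elim, fun _ _ _ h => h.elim, fun _ _ _ h => h.elim, fun _ _ _ h => h.elim, hV⟩

/-! ### The Hausdorff property -/

/-- Two points have disjoint open neighbourhoods. -/
def Sep (p q : Pt) : Prop := ∃ u v : Set Pt, IsOpen u ∧ IsOpen v ∧ p ∈ u ∧ q ∈ v ∧ Disjoint u v

theorem Sep.symm {p q : Pt} (h : Sep p q) : Sep q p := by
  obtain ⟨u, v, h1, h2, h3, h4, h5⟩ := h
  exact ⟨v, u, h2, h1, h4, h3, h5.symm⟩

theorem sep_intro {p q : Pt} (u v : Set Pt) (h1 : IsOpen u) (h2 : IsOpen v) (h3 : p ∈ u)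
    (h4 : q ∈ v) (h5 : ∀ r, r ∈ u → r ∈ v → False) : Sep p q :=
  ⟨u, v, h1, h2, h3, h4, Set.disjoint_left.2 fun r hr hr' => h5 r hr hr'⟩

theorem ssup_le_of_le {u : ℕ → W} {v : ℕ → W} (h : ∀ n, u n ≤ v n) : ssup u ≤ ssup v :=
  ssup_le fun n => lt_of_le_of_lt (h n) (lt_ssup v n)

theorem nd_ext {t u : Nd} (h : t.len = u.len) (h' : ∀ i < t.len, t.seq i = u.seq i) : t = u := by
  have hs : t.seq = u.seq := by
    funext i
    by_cases hi : i < t.len
    · exact h' i hi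
    · rw [t.bot i (not_lt.1 hi), u.bot i (h ▸ not_lt.1 hi)]
  cases t
  cases u
  simp only at h hs
  subst h hs
  rfl

/-- If `w` passes through two nodes, one extends the other. -/
theorem in_in {t u : Nd} {w : ℕ → W} (h1 : In t w) (h2 : In u w) (i : ℕ) (hi : i < t.len)
    (hi' : i < u.len) : t.seq i = u.seq i :=
  S_inj ((h1 i hi).symm.trans (h2 i hi'))

theorem mem_BC_Iic (t : Nd) (j : W) : Pt.col t j ∈ BC t (Iic j) := ⟨rfl, self_mem_Iic⟩

theorem mem_BU_self (t : Nd) (z : W) : Pt.nd t ∈ BU t z := rfl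

theorem mem_BN_self (a : W) (x : ℕ → W) (h : ssup x ≤ a) (b : W) (m : ℕ) (z : W) (hb : b < a) :
    Pt.pi a x h ∈ BN a x b m z := ⟨fun _ _ => rfl, hb, le_rfl⟩

theorem mem_BE_self (x : ℕ → W) (a : W) (h : ssup x < a) (l : W) (m : ℕ) (hl : l < a) :
    Pt.e x a h ∈ BE x a l m := ⟨rfl, hl, le_rfl⟩

theorem sep_nd_nd_aux {t u : Nd} (h : t.len < u.len) : Sep (Pt.nd t) (Pt.nd u) := by
  refine sep_intro (BU t (S (u.seq t.len))) (BU u ⊥) (isOpen_BU _ _) (isOpen_BU _ _)
    (mem_BU_self _ _) (mem_BU_self _ _) ?_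
  rintro (v | ⟨a'', w', _⟩ | ⟨v, j⟩ | ⟨y, a'', _⟩ | p) h1 h2
  · obtain rfl : v = t := h1
    obtain rfl : v = u := h2
    exact lt_irrefl _ h
  · exact h1.elim
  · obtain rfl : v = t := h1.1
    obtain rfl : v = u := h2.1
    exact lt_irrefl _ h
  · exact h1.elim
  · have h3 := h1.2
    rw [h2.1 _ h] at h3
    exact lt_irrefl _ h3

theorem sep_nd_nd {t u : Nd} (h : t ≠ u) : Sep (Pt.nd t) (Pt.nd u) := by
  rcases lt_trichotomy t.len u.len with hl | hl | hl
  · exact sep_nd_nd_aux hl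
  · refine sep_intro (BU t ⊥) (BU u ⊥) (isOpen_BU _ _) (isOpen_BU _ _)
      (mem_BU_self _ _) (mem_BU_self _ _) ?_
    rintro (v | ⟨a'', w', _⟩ | ⟨v, j⟩ | ⟨y, a'', _⟩ | p) h1 h2
    · exact h ((show v = t from h1).symm.trans h2)
    · exact h1.elim
    · exact h (h1.1.symm.trans h2.1)
    · exact h1.elim
    · exact h (nd_ext hl fun i hi => in_in h1.1 h2.1 i hi (hl ▸ hi))
  · exact (sep_nd_nd_aux hl).symm

theorem sep_nd_pi (t : Nd) (a : W) (x : ℕ → W) (h : ssup x ≤ a) :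
    Sep (Pt.nd t) (Pt.pi a x h) := by
  refine sep_intro (BU t (S (x t.len))) (BN a x ⊥ (t.len + 1) ⊥) (isOpen_BU _ _) (isOpen_BN _ _ _ _ _)
    (mem_BU_self _ _) (mem_BN_self _ _ _ _ _ _ (lt_of_lt_of_le (bot_lt_ssup x) h)) ?_
  rintro (v | ⟨a'', w', _⟩ | ⟨v, j⟩ | ⟨y, a'', _⟩ | p) h1 h2
  · obtain rfl : v = t := h1
    exact absurd h2.1 (by simp)
  · exact h1.elim
  · obtain rfl : v = t := h1.1
    exact absurd h2.1.1 (by simp)
  · exact h1.elim
  · obtain ⟨u, hu, h2, -⟩ := h2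
    have hlt : t.len < u.len := hu.1
    have h3 := h1.2
    rw [h2 _ hlt, hu.2.1 _ (Nat.lt_succ_self _)] at h3
    exact lt_irrefl _ h3

theorem sep_nd_col (t u : Nd) (j : W) : Sep (Pt.nd t) (Pt.col u j) := by
  refine sep_intro (BU t j) (BC u (Iic j)) (isOpen_BU _ _) (isOpen_BC_Iic _ _)
    (mem_BU_self _ _) (mem_BC_Iic _ _) ?_
  rintro (v | ⟨a'', w', _⟩ | ⟨v, i⟩ | ⟨y, a'', _⟩ | p) h1 h2
  · exact h2.elim
  · exact h2.elim
  · exact absurd (lt_of_lt_of_le h1.2 h2.2) (lt_irrefl _)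
  · exact h2.elim
  · exact h2.elim

theorem sep_nd_e (t : Nd) (x : ℕ → W) (a : W) (h : ssup x < a) :
    Sep (Pt.nd t) (Pt.e x a h) := by
  refine sep_intro (BU t a) (BE x a (ssup x) 0) (isOpen_BU _ _) (isOpen_BE _ _ _ _ le_rfl)
    (mem_BU_self _ _) (mem_BE_self _ _ _ _ _ h) ?_
  rintro (v | ⟨a'', w', _⟩ | ⟨v, i⟩ | ⟨y, a'', _⟩ | p) h1 h2
  · exact h2.elim
  · exact h2.elim
  · exact absurd (lt_of_lt_of_le h1.2 h2.2.2) (lt_irrefl _)
  · exact h1.elim
  · exact h2.elim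

theorem isOpen_level (a : W) : IsOpen {p : C | p.1.2 ≤ a} := by
  have : {p : C | p.1.2 ≤ a} = {p : C | p.1.2 < S a} := by
    ext p
    exact lt_S_iff.symm
  rw [this]
  exact isOpen_Iio.preimage (continuous_snd.comp continuous_subtype_val)

theorem sep_nd_c (t : Nd) (p : C) : Sep (Pt.nd t) (Pt.c p) := by
  refine sep_intro (BU t p.1.2) (BP {q | q.1.2 ≤ p.1.2}) (isOpen_BU _ _)
    (isOpen_BP (isOpen_level _)) (mem_BU_self _ _) (le_refl p.1.2) ?_
  rintro (v | ⟨a'', w', _⟩ | ⟨v, i⟩ | ⟨y, a'', _⟩ | q) h1 h2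
  · exact h2.elim
  · exact h2.elim
  · exact h2.elim
  · exact h2.elim
  · have h3 : q.1.2 ≤ p.1.2 := h2
    exact absurd (lt_of_lt_of_le h1.2 ((q.2 _).trans h3)) (lt_irrefl _)

theorem sep_pi_pi_ne {a a' : W} {x x' : ℕ → W} (h : ssup x ≤ a) (h' : ssup x' ≤ a') (hne : x ≠ x') :
    Sep (Pt.pi a x h) (Pt.pi a' x' h') := by
  obtain ⟨i, hi⟩ := Function.ne_iff.1 hne
  refine sep_intro (BN a x ⊥ (i + 1) ⊥) (BN a' x' ⊥ (i + 1) ⊥) (isOpen_BN _ _ _ _ _)
    (isOpen_BN _ _ _ _ _) (mem_BN_self _ _ _ _ _ _ (lt_of_lt_of_le (bot_lt_ssup x) h))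
    (mem_BN_self _ _ _ _ _ _ (lt_of_lt_of_le (bot_lt_ssup x') h')) ?_
  rintro (v | ⟨a'', w', _⟩ | ⟨v, j⟩ | ⟨y, a'', _⟩ | q) h1 h2
  · exact hi ((h1.2.1 i (Nat.lt_succ_self i)).symm.trans (h2.2.1 i (Nat.lt_succ_self i)))
  · exact hi ((h1.1 i (Nat.lt_succ_self i)).symm.trans (h2.1 i (Nat.lt_succ_self i)))
  · exact hi ((h1.1.2.1 i (Nat.lt_succ_self i)).symm.trans (h2.1.2.1 i (Nat.lt_succ_self i)))
  · exact h1.elim
  · obtain ⟨u, hu, h3, -⟩ := h1
    obtain ⟨u', hu', h4, -⟩ := h2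
    have := in_in h3 h4 i (lt_of_lt_of_le (Nat.lt_succ_self i) hu.1)
      (lt_of_lt_of_le (Nat.lt_succ_self i) hu'.1)
    exact hi ((hu.2.1 i (Nat.lt_succ_self i)).symm.trans
      (this.trans (hu'.2.1 i (Nat.lt_succ_self i))))

theorem sep_pi_pi_lt {a a' : W} {x : ℕ → W} (h : ssup x ≤ a) (h' : ssup x ≤ a') (hlt : a < a') :
    Sep (Pt.pi a x h) (Pt.pi a' x h') := by
  refine sep_intro (BN a x ⊥ 0 a') (BN a' x a 0 ⊥) (isOpen_BN _ _ _ _ _)
    (isOpen_BN _ _ _ _ _) (mem_BN_self _ _ _ _ _ _ (lt_of_lt_of_le (bot_lt_ssup x) h))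
    (mem_BN_self _ _ _ _ _ _ hlt) ?_
  rintro (v | ⟨a'', w', _⟩ | ⟨v, j⟩ | ⟨y, a'', _⟩ | q) h1 h2
  · exact absurd (lt_of_lt_of_le h2.2.2.1 h1.2.2.2) (lt_irrefl _)
  · exact absurd (lt_of_lt_of_le h2.2.1 h1.2.2) (lt_irrefl _)
  · exact absurd (lt_of_lt_of_le h2.1.2.2.1 h1.1.2.2.2) (lt_irrefl _)
  · exact h1.elim
  · obtain ⟨u, hu, h3, h5⟩ := h1
    obtain ⟨u', hu', h4, -⟩ := h2
    by_cases hl : u.len < u'.len
    · rw [h4 _ hl] at h5
      exact absurd (lt_of_lt_of_le h5 ((S_le (lt_ssup u'.seq u.len)).trans hu'.2.2.2))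
        (lt_irrefl _)
    · have hle : ssup u'.seq ≤ ssup u.seq := by
        refine ssup_le_of_le fun n => ?_
        by_cases hn : n < u'.len
        · exact (in_in h4 h3 n hn (lt_of_lt_of_le hn (not_lt.1 hl))).le
        · rw [u'.bot n (not_lt.1 hn)]
          exact bot_le
      exact absurd (lt_of_lt_of_le hu'.2.2.1 (hle.trans hu.2.2.2)) (lt_irrefl _)

theorem sep_pi_pi {a a' : W} {x x' : ℕ → W} (h : ssup x ≤ a) (h' : ssup x' ≤ a')
    (hne : Pt.pi a x h ≠ Pt.pi a' x' h') : Sep (Pt.pi a x h) (Pt.pi a' x' h') := by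
  by_cases hx : x = x'
  · subst hx
    rcases lt_trichotomy a a' with hl | hl | hl
    · exact sep_pi_pi_lt h h' hl
    · subst hl
      exact absurd rfl hne
    · exact (sep_pi_pi_lt h' h hl).symm
  · exact sep_pi_pi_ne h h' hx

theorem sep_pi_col (a : W) (x : ℕ → W) (h : ssup x ≤ a) (u : Nd) (j : W) :
    Sep (Pt.pi a x h) (Pt.col u j) := by
  refine sep_intro (BN a x ⊥ 0 j) (BC u (Iic j)) (isOpen_BN _ _ _ _ _) (isOpen_BC_Iic _ _)
    (mem_BN_self _ _ _ _ _ _ (lt_of_lt_of_le (bot_lt_ssup x) h)) (mem_BC_Iic _ _) ?_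
  rintro (v | ⟨a'', w', _⟩ | ⟨v, i⟩ | ⟨y, a'', _⟩ | p) h1 h2
  · exact h2.elim
  · exact h2.elim
  · exact absurd (lt_of_lt_of_le h1.2 h2.2) (lt_irrefl _)
  · exact h2.elim
  · exact h2.elim

theorem sep_pi_e (a : W) (x : ℕ → W) (h : ssup x ≤ a) (x' : ℕ → W) (a' : W) (h' : ssup x' < a') :
    Sep (Pt.pi a x h) (Pt.e x' a' h') := by
  refine sep_intro (BN a x ⊥ 0 a') (BE x' a' (ssup x') 0) (isOpen_BN _ _ _ _ _)
    (isOpen_BE _ _ _ _ le_rfl) (mem_BN_self _ _ _ _ _ _ (lt_of_lt_of_le (bot_lt_ssup x) h))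
    (mem_BE_self _ _ _ _ _ h') ?_
  rintro (v | ⟨a'', w', _⟩ | ⟨v, i⟩ | ⟨y, a'', _⟩ | p) h1 h2
  · exact h2.elim
  · exact h2.elim
  · exact absurd (lt_of_lt_of_le h1.2 h2.2.2) (lt_irrefl _)
  · exact h1.elim
  · exact h2.elim

theorem sep_pi_c (a : W) (x : ℕ → W) (h : ssup x ≤ a) (p : C) : Sep (Pt.pi a x h) (Pt.c p) := by
  refine sep_intro (BN a x ⊥ 0 p.1.2) (BP {q | q.1.2 ≤ p.1.2}) (isOpen_BN _ _ _ _ _)
    (isOpen_BP (isOpen_level _)) (mem_BN_self _ _ _ _ _ _ (lt_of_lt_of_le (bot_lt_ssup x) h))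
    (le_refl p.1.2) ?_
  rintro (v | ⟨a'', w', _⟩ | ⟨v, i⟩ | ⟨y, a'', _⟩ | q) h1 h2
  · exact h2.elim
  · exact h2.elim
  · exact h2.elim
  · exact h2.elim
  · have h3 : q.1.2 ≤ p.1.2 := h2
    obtain ⟨u, -, -, h4⟩ := h1
    exact absurd (lt_of_lt_of_le h4 ((q.2 _).trans h3)) (lt_irrefl _)

theorem sep_col_col_lt {t u : Nd} {i j : W} (h : i < j) : Sep (Pt.col t i) (Pt.col u j) := by
  refine sep_intro (BC t (Iic i)) (BC u (Ioi i)) (isOpen_BC_Iic _ _) (isOpen_BC_Ioi _ _)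
    (mem_BC_Iic _ _) ⟨rfl, h⟩ ?_
  rintro (v | ⟨a'', w', _⟩ | ⟨v, k⟩ | ⟨y, a'', _⟩ | q) h1 h2
  · exact h2.elim
  · exact h2.elim
  · exact absurd (lt_of_lt_of_le (mem_Ioi.1 h2.2) (mem_Iic.1 h1.2)) (lt_irrefl _)
  · exact h2.elim
  · exact h2.elim

theorem sep_col_col {t u : Nd} {i j : W} (hne : Pt.col t i ≠ Pt.col u j) :
    Sep (Pt.col t i) (Pt.col u j) := by
  rcases lt_trichotomy i j with hl | hl | hl
  · exact sep_col_col_lt hl
  · subst hl
    refine sep_intro (BC t (Iic i)) (BC u (Iic i)) (isOpen_BC_Iic _ _) (isOpen_BC_Iic _ _)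
      (mem_BC_Iic _ _) (mem_BC_Iic _ _) ?_
    rintro (v | ⟨a'', w', _⟩ | ⟨v, k⟩ | ⟨y, a'', _⟩ | q) h1 h2
    · exact h2.elim
    · exact h2.elim
    · obtain rfl : v = t := h1.1
      obtain rfl : v = u := h2.1
      exact hne rfl
    · exact h2.elim
    · exact h2.elim
  · exact (sep_col_col_lt hl).symm

theorem sep_col_e (t : Nd) (j : W) (x : ℕ → W) (a : W) (h : ssup x < a) :
    Sep (Pt.col t j) (Pt.e x a h) := by
  refine sep_intro (BC t (Iic j)) (BE x a (ssup x) (t.len + 1)) (isOpen_BC_Iic _ _)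
    (isOpen_BE _ _ _ _ le_rfl) (mem_BC_Iic _ _) (mem_BE_self _ _ _ _ _ h) ?_
  rintro (v | ⟨a'', w', _⟩ | ⟨v, i⟩ | ⟨y, a'', _⟩ | p) h1 h2
  · exact h2.elim
  · exact h2.elim
  · obtain rfl : v = t := h1.1
    exact absurd h2.1.1 (by simp)
  · exact h1.elim
  · exact h2.elim

theorem sep_col_c (t : Nd) (j : W) (p : C) : Sep (Pt.col t j) (Pt.c p) := by
  refine sep_intro (BC t (Iic j)) (BP univ) (isOpen_BC_Iic _ _) (isOpen_BP isOpen_univ)
    (mem_BC_Iic _ _) trivial ?_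
  rintro (v | ⟨a'', w', _⟩ | ⟨v, i⟩ | ⟨y, a'', _⟩ | p) h1 h2
  · exact h2.elim
  · exact h2.elim
  · exact h2.elim
  · exact h2.elim
  · exact h1.elim

theorem sep_e_c (x : ℕ → W) (a : W) (h : ssup x < a) (p : C) : Sep (Pt.e x a h) (Pt.c p) := by
  refine sep_intro (BE x a (ssup x) 0) (BP univ) (isOpen_BE _ _ _ _ le_rfl) (isOpen_BP isOpen_univ)
    (mem_BE_self _ _ _ _ _ h) trivial ?_
  rintro (v | ⟨a'', w', _⟩ | ⟨v, i⟩ | ⟨y, a'', _⟩ | p) h1 h2
  · exact h2.elim
  · exact h2.elim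
  · exact h2.elim
  · exact h2.elim
  · exact h1.elim

theorem sep_e_e_lt {x : ℕ → W} {a a' : W} (h : ssup x < a) (h' : ssup x < a') (hlt : a < a') :
    Sep (Pt.e x a h) (Pt.e x a' h') := by
  refine sep_intro (BE x a (ssup x) 0) (BE x a' a 0) (isOpen_BE _ _ _ _ le_rfl)
    (isOpen_BE _ _ _ _ h.le) (mem_BE_self _ _ _ _ _ h) (mem_BE_self _ _ _ _ _ hlt) ?_
  rintro (v | ⟨a'', w', _⟩ | ⟨v, i⟩ | ⟨y, a'', _⟩ | p) h1 h2
  · exact h2.elim
  · exact h2.elim
  · exact absurd (lt_of_lt_of_le h2.2.1 h1.2.2) (lt_irrefl _)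
  · exact absurd (lt_of_lt_of_le h2.2.1 h1.2.2) (lt_irrefl _)
  · exact h1.elim

theorem sep_e_e {x x' : ℕ → W} {a a' : W} (h : ssup x < a) (h' : ssup x' < a')
    (hne : Pt.e x a h ≠ Pt.e x' a' h') : Sep (Pt.e x a h) (Pt.e x' a' h') := by
  by_cases hx : x = x'
  · subst hx
    rcases lt_trichotomy a a' with hl | hl | hl
    · exact sep_e_e_lt h h' hl
    · subst hl
      exact absurd rfl hne
    · exact (sep_e_e_lt h' h hl).symm
  · obtain ⟨i, hi⟩ := Function.ne_iff.1 hx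
    refine sep_intro (BE x a (ssup x) (i + 1)) (BE x' a' (ssup x') (i + 1))
      (isOpen_BE _ _ _ _ le_rfl) (isOpen_BE _ _ _ _ le_rfl) (mem_BE_self _ _ _ _ _ h)
      (mem_BE_self _ _ _ _ _ h') ?_
    rintro (v | ⟨a'', w', _⟩ | ⟨v, k⟩ | ⟨y, a'', _⟩ | p) h1 h2
    · exact h2.elim
    · exact h2.elim
    · exact hi ((h1.1.2 i (Nat.lt_succ_self i)).symm.trans (h2.1.2 i (Nat.lt_succ_self i)))
    · exact hx (h1.1.symm.trans h2.1)
    · exact h1.elim

theorem sep_c_c {p q : C} (h : p ≠ q) : Sep (Pt.c p) (Pt.c q) := by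
  obtain ⟨u, v, hu, hv, hp, hq, hd⟩ := t2_separation h
  refine sep_intro (BP u) (BP v) (isOpen_BP hu) (isOpen_BP hv) hp hq ?_
  rintro (v | ⟨a'', w', _⟩ | ⟨v, i⟩ | ⟨y, a'', _⟩ | p) h1 h2
  · exact h2.elim
  · exact h2.elim
  · exact h2.elim
  · exact h2.elim
  · exact Set.disjoint_left.1 hd h1 h2

instance : T2Space Pt := ⟨by
  intro p q hne
  change Sep p q
  cases p with
  | nd t =>
    cases q with
    | nd u => exact sep_nd_nd fun h => hne (by rw [h])
    | pi a x h => exact sep_nd_pi _ _ _ _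
    | col u j => exact sep_nd_col _ _ _
    | e x a h => exact sep_nd_e _ _ _ _
    | c p => exact sep_nd_c _ _
  | pi a x h =>
    cases q with
    | nd u => exact (sep_nd_pi _ _ _ _).symm
    | pi a x h => exact sep_pi_pi _ _ hne
    | col u j => exact sep_pi_col _ _ _ _ _
    | e x a h => exact sep_pi_e _ _ _ _ _ _
    | c p => exact sep_pi_c _ _ _ _
  | col t j =>
    cases q with
    | nd u => exact (sep_nd_col _ _ _).symm
    | pi a x h => exact (sep_pi_col _ _ _ _ _).symm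
    | col u j => exact sep_col_col hne
    | e x a h => exact sep_col_e _ _ _ _ _
    | c p => exact sep_col_c _ _ _
  | e x a h =>
    cases q with
    | nd u => exact (sep_nd_e _ _ _ _).symm
    | pi a x h => exact (sep_pi_e _ _ _ _ _ _).symm
    | col u j => exact (sep_col_e _ _ _ _ _).symm
    | e x a h => exact sep_e_e _ _ hne
    | c p => exact sep_e_c _ _ _ _
  | c p =>
    cases q with
    | nd u => exact (sep_nd_c _ _).symm
    | pi a x h => exact (sep_pi_c _ _ _ _).symm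
    | col u j => exact (sep_col_c _ _ _).symm
    | e x a h => exact (sep_e_c _ _ _ _).symm
    | c q => exact sep_c_c fun h => hne (by rw [h])⟩

/-! ### Countable compactness of the set of points `c p` -/

theorem isCompact_levelC (a : W) : IsCompact {p : C | p.1.2 ≤ a} := by
  rw [Topology.IsEmbedding.subtypeVal.isCompact_iff]
  have h1 : IsCompact ((Set.pi univ fun _ : ℕ => (Iic a : Set W)) ×ˢ (Iic a : Set W)) :=
    (isCompact_univ_pi fun _ => isCompact_Iic a).prod (isCompact_Iic a)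
  have h2 : IsClosed {q : (ℕ → W) × W | ∀ i, q.1 i ≤ q.2} := by
    have : {q : (ℕ → W) × W | ∀ i, q.1 i ≤ q.2} = ⋂ i, {q : (ℕ → W) × W | q.1 i ≤ q.2} := by
      ext q
      simp
    rw [this]
    exact isClosed_iInter fun i =>
      isClosed_le ((continuous_apply i).comp continuous_fst) continuous_snd
  have h3 : (Subtype.val '' {p : C | p.1.2 ≤ a}) =
      ((Set.pi univ fun _ : ℕ => (Iic a : Set W)) ×ˢ (Iic a : Set W)) ∩
        {q : (ℕ → W) × W | ∀ i, q.1 i ≤ q.2} := by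
    ext q
    constructor
    · rintro ⟨p, hp, rfl⟩
      exact ⟨⟨fun i _ => (p.2 i).trans hp, hp⟩, p.2⟩
    · rintro ⟨⟨-, h4⟩, h5⟩
      exact ⟨⟨q, h5⟩, h4, rfl⟩
  rw [h3]
  exact h1.inter_right h2

theorem continuous_c : Continuous Pt.c := by
  rw [continuous_def]
  intro U hU
  exact hU.2.2.2.2

theorem cluster_of_c {s : ℕ → Pt} (h : ∃ᶠ n in atTop, ∃ p, s n = Pt.c p) :
    ∃ q, MapClusterPt q atTop s := by
  classical
  obtain ⟨a, ha⟩ := bdd fun n => if h : ∃ p, s n = Pt.c p then h.choose.1.2 else ⊥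
  have h1 : ∃ᶠ n in atTop, s n ∈ Pt.c '' {p : C | p.1.2 ≤ a} := by
    refine h.mono fun n hn => ?_
    have h2 := ha n
    simp only [hn, dite_true] at h2
    exact ⟨hn.choose, h2.le, hn.choose_spec.symm⟩
  obtain ⟨q, -, hq⟩ := ((isCompact_levelC a).image continuous_c).exists_mapClusterPt_of_frequently h1
  exact ⟨q, hq⟩

/-! ### The two cluster lemmas -/

/-- `q` is a node or a point `pi a w` agreeing with `x` below `m`. -/
def GoodPi (x : ℕ → W) (m : ℕ) (q : Pt) : Prop :=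
  (∃ t : Nd, q = Pt.nd t ∧ m ≤ t.len ∧ Ext x m t.seq) ∨ ∃ a w h, q = Pt.pi a w h ∧ Ext x m w

/-- `q` is a point `e x a`, or a column point above `ssup x` in the column of a node extending
`x` below `m`. -/
def GoodE (x : ℕ → W) (m : ℕ) (q : Pt) : Prop :=
  (∃ t j, q = Pt.col t j ∧ m ≤ t.len ∧ Ext x m t.seq ∧ ssup x < j) ∨ ∃ a h, q = Pt.e x a h

theorem GoodPi.mono {x : ℕ → W} {m m' : ℕ} {q : Pt} (hm : m ≤ m') (h : GoodPi x m' q) :
    GoodPi x m q := by
  rcases h with ⟨t, h1, h2, h3⟩ | ⟨a, w, h, h1, h2⟩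
  · exact Or.inl ⟨t, h1, hm.trans h2, fun i hi => h3 i (lt_of_lt_of_le hi hm)⟩
  · exact Or.inr ⟨a, w, h, h1, fun i hi => h2 i (lt_of_lt_of_le hi hm)⟩

theorem GoodE.mono {x : ℕ → W} {m m' : ℕ} {q : Pt} (hm : m ≤ m') (h : GoodE x m' q) :
    GoodE x m q := by
  rcases h with ⟨t, j, h1, h2, h3, h4⟩ | ⟨a, h, h1⟩
  · exact Or.inl ⟨t, j, h1, hm.trans h2, fun i hi => h3 i (lt_of_lt_of_le hi hm), h4⟩
  · exact Or.inr ⟨a, h, h1⟩

theorem mapClusterPt_intro {q : Pt} {s : ℕ → Pt}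
    (h : ∀ U : Set Pt, IsOpen U → q ∈ U → ∃ᶠ n in atTop, s n ∈ U) : MapClusterPt q atTop s := by
  rw [mapClusterPt_iff_frequently]
  intro V hV
  obtain ⟨U, hUV, hU, hq⟩ := mem_nhds_iff.1 hV
  exact (h U hU hq).mono fun n hn => hUV hn

theorem frequently_of_comp {φ : ℕ → ℕ} (hφ : StrictMono φ) {P : ℕ → Prop}
    (h : ∃ᶠ k in atTop, P (φ k)) : ∃ᶠ n in atTop, P n :=
  hφ.tendsto_atTop.frequently h

theorem cluster_of_goodPi {x : ℕ → W} {s : ℕ → Pt} (H : ∀ m, ∃ᶠ n in atTop, GoodPi x m (s n)) :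
    ∃ a h, MapClusterPt (Pt.pi a x h) atTop s := by
  classical
  obtain ⟨φ, hφ, hg⟩ := extraction_forall_of_frequently H
  -- the ranks
  have hr : ∀ k, ∃ r : W, (∀ i < k, x i < r) ∧
      ∀ a b m z, m ≤ k → b < r → r ≤ a → s (φ k) ∈ BN a x b m z := by
    intro k
    rcases hg k with ⟨t, h1, h2, h3⟩ | ⟨a, w, h, h1, h2⟩
    · refine ⟨ssup t.seq, fun i hi => ?_, fun a b m z hm hb ha => ?_⟩
      · rw [← h3 i hi]
        exact lt_ssup _ _
      · rw [h1]
        exact ⟨hm.trans h2, fun i hi => h3 i (lt_of_lt_of_le hi hm), hb, ha⟩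
    · refine ⟨a, fun i hi => ?_, fun a' b m z hm hb ha => ?_⟩
      · rw [← h2 i hi]
        exact lt_of_lt_of_le (lt_ssup _ _) h
      · rw [h1]
        exact ⟨fun i hi => h2 i (lt_of_lt_of_le hi hm), hb, ha⟩
  choose r hr1 hr2 using hr
  obtain ⟨a, ha1, ha2⟩ := exists_level r
  have hx : ssup x ≤ a := by
    refine ssup_le fun i => ?_
    obtain ⟨k, hk1, hk2⟩ := (ha1.and_eventually (eventually_gt_atTop i)).exists
    exact lt_of_lt_of_le (hr1 k i hk2) hk1
  refine ⟨a, hx, mapClusterPt_intro fun U hU hq => ?_⟩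
  obtain ⟨b, hb, m, z, hz⟩ := hU.2.1 a x hx hq
  refine frequently_of_comp hφ (P := fun n => s n ∈ U) ?_
  exact ((ha2 b hb).and_eventually (eventually_ge_atTop m)).mono fun k hk =>
    hz (hr2 k a b m z hk.2 hk.1.1 hk.1.2)

theorem cluster_of_goodE {x : ℕ → W} {s : ℕ → Pt} (H : ∀ m, ∃ᶠ n in atTop, GoodE x m (s n)) :
    ∃ a h, MapClusterPt (Pt.e x a h) atTop s := by
  classical
  obtain ⟨φ, hφ, hg⟩ := extraction_forall_of_frequently H
  have hr : ∀ k, ∃ r : W, ssup x < r ∧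
      ∀ a l m, m ≤ k → l < r → r ≤ a → s (φ k) ∈ BE x a l m := by
    intro k
    rcases hg k with ⟨t, j, h1, h2, h3, h4⟩ | ⟨a, h, h1⟩
    · refine ⟨j, h4, fun a l m hm hl ha => ?_⟩
      rw [h1]
      exact ⟨⟨hm.trans h2, fun i hi => h3 i (lt_of_lt_of_le hi hm)⟩, hl, ha⟩
    · refine ⟨a, h, fun a' l m hm hl ha => ?_⟩
      rw [h1]
      exact ⟨rfl, hl, ha⟩
  choose r hr1 hr2 using hr
  obtain ⟨a, ha1, ha2⟩ := exists_level r
  have hx : ssup x < a := by
    obtain ⟨k, hk⟩ := ha1.exists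
    exact lt_of_lt_of_le (hr1 k) hk
  refine ⟨a, hx, mapClusterPt_intro fun U hU hq => ?_⟩
  obtain ⟨l, hl, m, hz⟩ := hU.2.2.2.1 x a hx hq
  refine frequently_of_comp hφ (P := fun n => s n ∈ U) ?_
  exact ((ha2 l hl).and_eventually (eventually_ge_atTop m)).mono fun k hk =>
    hz (hr2 k a l m hk.2 hk.1.1 hk.1.2)

/-- A sequence which is frequently in the union of a node and its column has a cluster point. -/
theorem cluster_of_column {t : Nd} {s : ℕ → Pt}
    (H : ∃ᶠ n in atTop, s n = Pt.nd t ∨ ∃ j, s n = Pt.col t j) : ∃ q, MapClusterPt q atTop s := by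
  classical
  rcases Filter.frequently_or_distrib.1 H with H | H
  · refine ⟨Pt.nd t, mapClusterPt_intro fun U _ hq => ?_⟩
    exact H.mono fun n hn => by rw [hn]; exact hq
  · obtain ⟨φ, hφ, hg⟩ := extraction_of_frequently_atTop H
    choose r hr using hg
    obtain ⟨a, ha1, ha2⟩ := exists_level r
    refine ⟨Pt.col t a, mapClusterPt_intro fun U hU hq => ?_⟩
    refine frequently_of_comp hφ (P := fun n => s n ∈ U) ?_
    rcases eq_bot_or_bot_lt a with rfl | hpos
    · refine ha1.mono fun k hk => ?_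
      rw [hr k, le_bot_iff.1 hk]
      exact hq
    · obtain ⟨l, hl, h⟩ := hU.2.2.1 t a hpos hq
      refine (ha2 l hl).mono fun k hk => ?_
      rw [hr k]
      exact h _ hk.1 hk.2

/-! ### General facts -/

theorem mapClusterPt_sub {Z : Set Pt} {z : Z} {s : ℕ → Z}
    (h : MapClusterPt (z : Pt) atTop fun n => (s n : Pt)) : MapClusterPt z atTop s := by
  rw [mapClusterPt_iff_frequently] at h ⊢
  intro V hV
  obtain ⟨V', hV', hsub⟩ := mem_nhds_subtype _ _ _ |>.1 hV
  exact (h V' hV').mono fun n hn => hsub hn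

theorem wdelta_sub {Z : Set Pt} (hZ : IsClosed Z) (G : ℕ → Set (Set Pt))
    (hG : ∀ n, ∀ U ∈ G n, IsOpen U) (hcov : ∀ n, ∀ z ∈ Z, ∃ U ∈ G n, z ∈ U)
    (h : ∀ z ∈ Z, ∀ s : ℕ → Pt, (∀ n, s n ∈ Z) → (∀ n, ∃ U ∈ G n, z ∈ U ∧ s n ∈ U) →
      ∃ p, MapClusterPt p atTop s) : IsWDelta Z := by
  refine ⟨fun n => {V | ∃ U ∈ G n, V = Subtype.val ⁻¹' U}, ?_, ?_, ?_⟩
  · rintro n V ⟨U, hU, rfl⟩
    exact (hG n U hU).preimage continuous_subtype_val
  · intro n
    rw [eq_univ_iff_forall]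
    intro z
    obtain ⟨U, hU, hz⟩ := hcov n z z.2
    exact ⟨_, ⟨U, hU, rfl⟩, hz⟩
  · intro z s hs
    obtain ⟨p, hp⟩ := h z z.2 (fun n => (s n : Pt)) (fun n => (s n).2) (by
      intro n
      obtain ⟨V, ⟨U, hU, rfl⟩, h1, h2⟩ := hs n
      exact ⟨U, hU, h1, h2⟩)
    have hpZ : p ∈ Z := by
      by_contra hcon
      have := (mapClusterPt_iff_frequently.1 hp) Zᶜ (hZ.isOpen_compl.mem_nhds hcon)
      obtain ⟨n, hn⟩ := this.exists
      exact hn (s n).2
    exact ⟨⟨p, hpZ⟩, mapClusterPt_sub hp⟩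

theorem wdelta_sum {A B : Type} [TopologicalSpace A] [TopologicalSpace B] (hA : IsWDelta A)
    (hB : IsWDelta B) : IsWDelta (A ⊕ B) := by
  obtain ⟨G, hG1, hG2, hG3⟩ := hA
  obtain ⟨H, hH1, hH2, hH3⟩ := hB
  refine ⟨fun n => {V | (∃ U ∈ G n, V = Sum.inl '' U) ∨ ∃ U ∈ H n, V = Sum.inr '' U}, ?_, ?_, ?_⟩
  · rintro n V (⟨U, hU, rfl⟩ | ⟨U, hU, rfl⟩)
    · exact isOpenMap_inl _ (hG1 n U hU)
    · exact isOpenMap_inr _ (hH1 n U hU)
  · intro n
    rw [eq_univ_iff_forall]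
    rintro (a | b)
    · have : a ∈ ⋃₀ G n := by rw [hG2 n]; trivial
      obtain ⟨U, hU, ha⟩ := this
      exact ⟨_, Or.inl ⟨U, hU, rfl⟩, a, ha, rfl⟩
    · have : b ∈ ⋃₀ H n := by rw [hH2 n]; trivial
      obtain ⟨U, hU, hb⟩ := this
      exact ⟨_, Or.inr ⟨U, hU, rfl⟩, b, hb, rfl⟩
  · rintro (a | b) s hs
    · have h1 : ∀ n, ∃ a', s n = Sum.inl a' ∧ ∃ U ∈ G n, a ∈ U ∧ a' ∈ U := by
        intro n
        obtain ⟨V, ⟨U, hU, rfl⟩ | ⟨U, hU, rfl⟩, h1, h2⟩ := hs n
        · obtain ⟨a₁, ha₁, h3⟩ := h1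
          obtain ⟨a₂, ha₂, h4⟩ := h2
          cases Sum.inl_injective h3
          exact ⟨a₂, h4.symm, U, hU, ha₁, ha₂⟩
        · obtain ⟨b₁, -, h3⟩ := h1
          cases h3
      choose s' hs' h2 using h1
      obtain ⟨p, hp⟩ := hG3 a s' h2
      refine ⟨Sum.inl p, ?_⟩
      have := hp.continuousAt_comp (f := (Sum.inl : A → A ⊕ B)) continuous_inl.continuousAt
      rwa [show Sum.inl ∘ s' = s from funext fun n => (hs' n).symm] at this
    · have h1 : ∀ n, ∃ a', s n = Sum.inr a' ∧ ∃ U ∈ H n, b ∈ U ∧ a' ∈ U := by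
        intro n
        obtain ⟨V, ⟨U, hU, rfl⟩ | ⟨U, hU, rfl⟩, h1, h2⟩ := hs n
        · obtain ⟨b₁, -, h3⟩ := h1
          cases h3
        · obtain ⟨a₁, ha₁, h3⟩ := h1
          obtain ⟨a₂, ha₂, h4⟩ := h2
          cases Sum.inr_injective h3
          exact ⟨a₂, h4.symm, U, hU, ha₁, ha₂⟩
      choose s' hs' h2 using h1
      obtain ⟨p, hp⟩ := hH3 b s' h2
      refine ⟨Sum.inr p, ?_⟩
      have := hp.continuousAt_comp (f := (Sum.inr : B → A ⊕ B)) continuous_inr.continuousAt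
      rwa [show Sum.inr ∘ s' = s from funext fun n => (hs' n).symm] at this

/-! ### The two closed pieces -/

/-- The nodes, the points `pi a x` and the points `c p`. -/
def Y0 : Set Pt := fun q => match q with
  | .nd _ => True
  | .pi _ _ _ => True
  | .col _ _ => False
  | .e _ _ _ => False
  | .c _ => True

/-- All points but the points `c p`. -/
def Y1 : Set Pt := fun q => match q with
  | .nd _ => True
  | .pi _ _ _ => True
  | .col _ _ => True
  | .e _ _ _ => True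
  | .c _ => False

theorem isClosed_Y0 : IsClosed Y0 := by
  rw [← isOpen_compl_iff]
  refine ⟨fun _ h => absurd trivial h, fun _ _ _ h => absurd trivial h, ?_, ?_, ?_⟩
  · intro t j hj _
    exact ⟨⊥, hj, fun i _ _ h => h⟩
  · intro x a h _
    refine ⟨ssup x, h, 0, ?_⟩
    rintro (u | ⟨a', w, _⟩ | ⟨u, j⟩ | ⟨x, a, _⟩ | p) hq hq'
    · exact hq
    · exact hq
    · exact hq'
    · exact hq'
    · exact hq
  · have : {p : C | Pt.c p ∈ Y0ᶜ} = ∅ := by
      ext p
      exact ⟨fun h => absurd trivial h, fun h => h.elim⟩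
    rw [this]
    exact isOpen_empty

theorem isClosed_Y1 : IsClosed Y1 := by
  rw [← isOpen_compl_iff]
  have : Y1ᶜ = BP univ := by
    ext q
    cases q with
    | nd t => exact ⟨fun h => absurd trivial h, fun h => h.elim⟩
    | pi a x h => exact ⟨fun h => absurd trivial h, fun h => h.elim⟩
    | col t j => exact ⟨fun h => absurd trivial h, fun h => h.elim⟩
    | e x a h => exact ⟨fun h => absurd trivial h, fun h => h.elim⟩
    | c p => exact ⟨fun _ => trivial, fun _ h => h⟩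
  rw [this]
  exact isOpen_BP isOpen_univ

/-! ### The first piece is a wDelta-space -/

/-- The covers of the first piece. -/
def G0 (n : ℕ) : Set (Set Pt) :=
  {U | (∃ t, U = BU t ⊥) ∨ (∃ a x, ssup x ≤ a ∧ U = BN a x ⊥ n a) ∨ U = BP univ}

theorem cluster_const {q : Pt} {s : ℕ → Pt} (h : ∃ᶠ n in atTop, s n = q) :
    ∃ p, MapClusterPt p atTop s :=
  ⟨q, mapClusterPt_intro fun U _ hq => h.mono fun n hn => by rw [hn]; exact hq⟩

theorem wdelta_Y0 : IsWDelta Y0 := by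
  classical
  refine wdelta_sub isClosed_Y0 G0 ?_ ?_ ?_
  · rintro n U (⟨t, rfl⟩ | ⟨a, x, -, rfl⟩ | rfl)
    · exact isOpen_BU _ _
    · exact isOpen_BN _ _ _ _ _
    · exact isOpen_BP isOpen_univ
  · rintro n (t | ⟨a, x, h⟩ | ⟨t, j⟩ | ⟨x, a, h⟩ | p) hz
    · exact ⟨_, Or.inl ⟨t, rfl⟩, rfl⟩
    · exact ⟨_, Or.inr (Or.inl ⟨a, x, h, rfl⟩),
        mem_BN_self _ _ _ _ _ _ (lt_of_lt_of_le (bot_lt_ssup x) h)⟩
    · exact hz.elim
    · exact hz.elim
    · exact ⟨_, Or.inr (Or.inr rfl), trivial⟩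
  · intro z hz s hsZ hs
    by_cases hc : ∃ᶠ n in atTop, ∃ p, s n = Pt.c p
    · exact cluster_of_c hc
    have hc' : ∀ᶠ n in atTop, ¬ ∃ p, s n = Pt.c p := Filter.not_frequently.1 hc
    rcases z with t | ⟨a, x, h⟩ | ⟨t, j⟩ | ⟨x, a, h⟩ | p
    · -- centre a node
      refine cluster_const (q := Pt.nd t) (Eventually.frequently ?_)
      filter_upwards [hc', eventually_gt_atTop t.len] with n hn hlt
      obtain ⟨U, ⟨u, rfl⟩ | ⟨a, x, -, rfl⟩ | rfl, h1, h2⟩ := hs n
      · obtain rfl : t = u := h1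
        cases hq : s n with
        | nd v =>
          rw [hq] at h2
          rw [show v = t from h2]
        | pi a x h => rw [hq] at h2; exact h2.elim
        | col v j => have := hsZ n; rw [hq] at this; exact this.elim
        | e x a h => rw [hq] at h2; exact h2.elim
        | c p => exact (hn ⟨p, hq⟩).elim
      · exact absurd h1.1 (not_le.2 hlt)
      · exact h1.elim
    · -- centre a point `pi`
      obtain ⟨a', h', hcl⟩ := cluster_of_goodPi (x := x) (s := s) (by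
        intro m
        refine Eventually.frequently ?_
        filter_upwards [hc', eventually_ge_atTop m] with n hn hm
        refine GoodPi.mono hm ?_
        obtain ⟨U, ⟨u, rfl⟩ | ⟨a', x', -, rfl⟩ | rfl, h1, h2⟩ := hs n
        · exact h1.elim
        · cases hq : s n with
          | nd v =>
            rw [hq] at h2
            exact Or.inl ⟨v, rfl, h2.1, fun i hi => (h2.2.1 i hi).trans (h1.1 i hi).symm⟩
          | pi a w h =>
            rw [hq] at h2
            exact Or.inr ⟨a, w, h, rfl, fun i hi => (h2.1 i hi).trans (h1.1 i hi).symm⟩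
          | col v j => have := hsZ n; rw [hq] at this; exact this.elim
          | e x a h => rw [hq] at h2; exact h2.elim
          | c p => exact (hn ⟨p, hq⟩).elim
        · exact h1.elim)
      exact ⟨_, hcl⟩
    · exact hz.elim
    · exact hz.elim
    · -- centre a point `c p`
      let x : ℕ → W := fun i => if h : ∃ b, p.1.1 i = S b then h.choose else ⊥
      have hx : ∀ u : Nd, In u p.1.1 → ∀ i < u.len, u.seq i = x i := by
        intro u hu i hi
        have h1 : ∃ b, p.1.1 i = S b := ⟨_, hu i hi⟩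
        have h2 : x i = h1.choose := by simp only [x, h1, dite_true]
        rw [h2]
        exact S_inj ((hu i hi).symm.trans h1.choose_spec)
      -- the terms of the sequence
      have hterm : ∀ᶠ n in atTop, GoodPi x n (s n) ∨ ∃ u, s n = Pt.nd u ∧ In u p.1.1 := by
        filter_upwards [hc'] with n hn
        obtain ⟨U, ⟨u, rfl⟩ | ⟨a', x', -, rfl⟩ | rfl, h1, h2⟩ := hs n
        · cases hq : s n with
          | nd v =>
            rw [hq] at h2
            obtain rfl : v = u := h2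
            exact Or.inr ⟨v, rfl, h1.1⟩
          | pi a w h => rw [hq] at h2; exact h2.elim
          | col v j => have := hsZ n; rw [hq] at this; exact this.elim
          | e x a h => rw [hq] at h2; exact h2.elim
          | c p => exact (hn ⟨p, hq⟩).elim
        · obtain ⟨u, hu, hup, -⟩ := h1
          have hxx : ∀ i < n, x' i = x i := fun i hi =>
            (hu.2.1 i hi).symm.trans (hx u hup i (lt_of_lt_of_le hi hu.1))
          cases hq : s n with
          | nd v =>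
            rw [hq] at h2
            exact Or.inl (Or.inl ⟨v, rfl, h2.1, fun i hi => (h2.2.1 i hi).trans (hxx i hi)⟩)
          | pi a w h =>
            rw [hq] at h2
            exact Or.inl (Or.inr ⟨a, w, h, rfl, fun i hi => (h2.1 i hi).trans (hxx i hi)⟩)
          | col v j => have := hsZ n; rw [hq] at this; exact this.elim
          | e x a h => rw [hq] at h2; exact h2.elim
          | c p => exact (hn ⟨p, hq⟩).elim
        · cases hq : s n with
          | nd v => rw [hq] at h2; exact h2.elim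
          | pi a w h => rw [hq] at h2; exact h2.elim
          | col v j => have := hsZ n; rw [hq] at this; exact this.elim
          | e x a h => rw [hq] at h2; exact h2.elim
          | c p => exact (hn ⟨p, hq⟩).elim
      by_cases hg : ∀ m, ∃ᶠ n in atTop, GoodPi x m (s n)
      · obtain ⟨a', h', hcl⟩ := cluster_of_goodPi hg
        exact ⟨_, hcl⟩
      · push Not at hg
        obtain ⟨m, hm⟩ := hg
        -- eventually one of finitely many nodes
        let nodes : ℕ → Nd := fun k => ⟨k, fun i => if i < k then x i else ⊥, fun i hi => by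
          simp [not_lt.2 hi]⟩
        have hfin : ∀ᶠ n in atTop, ∃ k ∈ Finset.range m, s n = Pt.nd (nodes k) := by
          filter_upwards [hterm, hm, eventually_ge_atTop m] with n h1 h2 h3
          rcases h1 with h1 | ⟨u, hu, hup⟩
          · exact absurd (h1.mono h3) h2
          · have hlen : u.len < m := by
              by_contra hcon
              exact h2 (Or.inl ⟨u, hu, not_lt.1 hcon, fun i hi =>
                hx u hup i (lt_of_lt_of_le hi (not_lt.1 hcon))⟩)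
            refine ⟨u.len, Finset.mem_range.2 hlen, ?_⟩
            rw [hu]
            congr 1
            refine nd_ext rfl fun i hi => ?_
            rw [hx u hup i hi]
            simp [nodes, hi]
        have hK : IsCompact ((fun k => Pt.nd (nodes k)) '' (Finset.range m : Set ℕ)) :=
          ((Finset.range m).finite_toSet.image _).isCompact
        obtain ⟨q, -, hq⟩ := hK.exists_mapClusterPt_of_frequently (f := s) (l := atTop) (by
          refine (hfin.mono fun n hn => ?_).frequently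
          obtain ⟨k, hk, hk'⟩ := hn
          exact ⟨k, hk, hk'.symm⟩)
        exact ⟨q, hq⟩

/-! ### The second piece is a wDelta-space -/

/-- A node, its column and all points `c p`. -/
def OC (t : Nd) : Set Pt := fun q => match q with
  | .nd u => u = t
  | .pi _ _ _ => False
  | .col u _ => u = t
  | .e _ _ _ => False
  | .c _ => True

theorem isOpen_OC (t : Nd) : IsOpen (OC t) := by
  refine ⟨?_, fun _ _ _ h => h.elim, ?_, fun _ _ _ h => h.elim, ?_⟩
  · intro u hu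
    refine ⟨⊥, ?_⟩
    rintro (v | ⟨a'', w', _⟩ | ⟨v, i⟩ | ⟨y, a'', _⟩ | p) hq
    · exact (show v = u from hq).trans hu
    · exact hq.elim
    · exact hq.1.trans hu
    · exact hq.elim
    · trivial
  · intro u j hj hu
    exact ⟨⊥, hj, fun _ _ _ => hu⟩
  · have : {p : C | Pt.c p ∈ OC t} = univ := by
      ext p
      exact ⟨fun _ => trivial, fun _ => trivial⟩
    rw [this]
    exact isOpen_univ

/-- The covers of the second piece. -/
def G1 (n : ℕ) : Set (Set Pt) :=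
  {U | (∃ t, U = OC t) ∨ (∃ a x, ssup x ≤ a ∧ U = BN a x ⊥ n a) ∨
    ∃ x a, ssup x < a ∧ U = BE x a (ssup x) n}

theorem wdelta_Y1 : IsWDelta Y1 := by
  classical
  refine wdelta_sub isClosed_Y1 G1 ?_ ?_ ?_
  · rintro n U (⟨t, rfl⟩ | ⟨a, x, -, rfl⟩ | ⟨x, a, -, rfl⟩)
    · exact isOpen_OC _
    · exact isOpen_BN _ _ _ _ _
    · exact isOpen_BE _ _ _ _ le_rfl
  · rintro n (t | ⟨a, x, h⟩ | ⟨t, j⟩ | ⟨x, a, h⟩ | p) hz
    · exact ⟨_, Or.inl ⟨t, rfl⟩, rfl⟩
    · exact ⟨_, Or.inr (Or.inl ⟨a, x, h, rfl⟩),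
        mem_BN_self _ _ _ _ _ _ (lt_of_lt_of_le (bot_lt_ssup x) h)⟩
    · exact ⟨_, Or.inl ⟨t, rfl⟩, rfl⟩
    · exact ⟨_, Or.inr (Or.inr ⟨x, a, h, rfl⟩), mem_BE_self _ _ _ _ _ h⟩
    · exact hz.elim
  · intro z hz s hsZ hs
    -- centres in the union of a node and its column
    have hcol : ∀ t : Nd, (∀ n > t.len, ∀ U ∈ G1 n, z ∈ U → U = OC t) →
        ∃ p, MapClusterPt p atTop s := by
      intro t ht
      refine cluster_of_column (t := t) (Eventually.frequently ?_)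
      filter_upwards [eventually_gt_atTop t.len] with n hn
      obtain ⟨U, hU, h1, h2⟩ := hs n
      rw [ht n hn U hU h1] at h2
      cases hq : s n with
      | nd v =>
        rw [hq] at h2
        exact Or.inl (by rw [show v = t from h2])
      | pi a w h => rw [hq] at h2; exact h2.elim
      | col v j =>
        rw [hq] at h2
        exact Or.inr ⟨j, by rw [show v = t from h2]⟩
      | e x a h => rw [hq] at h2; exact h2.elim
      | c p => have := hsZ n; rw [hq] at this; exact this.elim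
    rcases z with t | ⟨a, x, h⟩ | ⟨t, j⟩ | ⟨x, a, h⟩ | p
    · refine hcol t ?_
      rintro n hn U (⟨u, rfl⟩ | ⟨a, x, -, rfl⟩ | ⟨x, a, -, rfl⟩) h1
      · rw [show t = u from h1]
      · exact absurd h1.1 (not_le.2 hn)
      · exact h1.elim
    · -- centre a point `pi`
      by_cases hg : ∀ m, ∃ᶠ n in atTop, GoodPi x m (s n)
      · obtain ⟨a', h', hcl⟩ := cluster_of_goodPi hg
        exact ⟨_, hcl⟩
      · push Not at hg
        obtain ⟨m, hm⟩ := hg
        obtain ⟨a', h', hcl⟩ := cluster_of_goodE (x := x) (s := s) (by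
          intro m'
          refine Eventually.frequently ?_
          filter_upwards [hm, eventually_ge_atTop m, eventually_ge_atTop m'] with n h1 h2 h3
          have key : GoodPi x n (s n) ∨ GoodE x n (s n) := by
            obtain ⟨U, ⟨u, rfl⟩ | ⟨a', x', -, rfl⟩ | ⟨x', a', -, rfl⟩, h1, h2⟩ := hs n
            · exact h1.elim
            · cases hq : s n with
              | nd v =>
                rw [hq] at h2
                exact Or.inl (Or.inl ⟨v, rfl, h2.1,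
                  fun i hi => (h2.2.1 i hi).trans (h1.1 i hi).symm⟩)
              | pi a w h =>
                rw [hq] at h2
                exact Or.inl (Or.inr ⟨a, w, h, rfl,
                  fun i hi => (h2.1 i hi).trans (h1.1 i hi).symm⟩)
              | col v j =>
                rw [hq] at h2
                exact Or.inr (Or.inl ⟨v, j, rfl, h2.1.1,
                  fun i hi => (h2.1.2.1 i hi).trans (h1.1 i hi).symm,
                  lt_of_le_of_lt (h.trans h1.2.2) h2.2⟩)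
              | e x a h => rw [hq] at h2; exact h2.elim
              | c p => have := hsZ n; rw [hq] at this; exact this.elim
            · exact h1.elim
          rcases key with key | key
          · exact absurd (key.mono h2) h1
          · exact key.mono h3)
        exact ⟨_, hcl⟩
    · refine hcol t ?_
      rintro n hn U (⟨u, rfl⟩ | ⟨a, x, -, rfl⟩ | ⟨x, a, -, rfl⟩) h1
      · rw [show t = u from h1]
      · exact absurd h1.1.1 (not_le.2 hn)
      · exact absurd h1.1.1 (not_le.2 hn)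
    · -- centre a point `e`
      obtain ⟨a', h', hcl⟩ := cluster_of_goodE (x := x) (s := s) (by
        intro m
        refine Eventually.frequently ?_
        filter_upwards [eventually_ge_atTop m] with n hm
        refine GoodE.mono hm ?_
        obtain ⟨U, ⟨u, rfl⟩ | ⟨a', x', -, rfl⟩ | ⟨x', a', -, rfl⟩, h1, h2⟩ := hs n
        · exact h1.elim
        · exact h1.elim
        · obtain rfl : x = x' := h1.1
          cases hq : s n with
          | nd v => rw [hq] at h2; exact h2.elim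
          | pi a w h => rw [hq] at h2; exact h2.elim
          | col v j =>
            rw [hq] at h2
            exact Or.inl ⟨v, j, rfl, h2.1.1, h2.1.2, h2.2.1⟩
          | e y a₂ h₂ =>
            rw [hq] at h2
            obtain rfl : y = x := h2.1
            exact Or.inr ⟨a₂, h₂, rfl⟩
          | c p => rw [hq] at h2; exact h2.elim)
      exact ⟨_, hcl⟩
    · exact hz.elim

/-! ### The space `Y` is not a wDelta-space -/

/-- The node of length `n` with the first values of `v`. -/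
noncomputable def nodeOf (n : ℕ) (v : ℕ → W) : Nd where
  len := n
  seq := fun i => if i < n then v i else ⊥
  bot := fun i hi => by simp [not_lt.2 hi]

theorem nodeOf_congr {n : ℕ} {v v' : ℕ → W} (h : ∀ i < n, v i = v' i) :
    nodeOf n v = nodeOf n v' := by
  refine nd_ext rfl fun i hi => ?_
  have hi' : i < n := hi
  simp [nodeOf, hi', h i hi']

theorem nodeOf_seq {n : ℕ} {v : ℕ → W} {i : ℕ} (hi : i < n) : (nodeOf n v).seq i = v i := by
  simp [nodeOf, hi]

theorem not_wdelta : ¬ IsWDelta Pt := by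
  classical
  rintro ⟨G, hG1, hG2, hG3⟩
  have hch : ∀ (n : ℕ) (t : Nd), ∃ (U : Set Pt) (z : W), U ∈ G n ∧ BU t z ⊆ U := by
    intro n t
    have : Pt.nd t ∈ ⋃₀ G n := by rw [hG2 n]; trivial
    obtain ⟨U, hU, ht⟩ := this
    obtain ⟨z, hz⟩ := (hG1 n U hU).1 t ht
    exact ⟨U, z, hU, hz⟩
  choose U z hU hz using hch
  let v : ℕ → ℕ → W := fun n => Nat.rec (fun _ => ⊥)
    (fun n vn => Function.update vn n (S (z n (nodeOf n vn)))) n
  have hv : ∀ n, v (n + 1) = Function.update (v n) n (S (z n (nodeOf n (v n)))) := fun n => rfl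
  let x : ℕ → W := fun n => v (n + 1) n
  have hvx : ∀ n, ∀ i < n, v n i = x i := by
    intro n
    induction n with
    | zero => intro i hi; exact absurd hi (Nat.not_lt_zero i)
    | succ n ih =>
      intro i hi
      rcases Nat.lt_succ_iff_lt_or_eq.1 hi with h | rfl
      · rw [hv n, Function.update_of_ne h.ne]
        exact ih i h
      · rfl
  have hnode : ∀ n, nodeOf n (v n) = nodeOf n x := fun n => nodeOf_congr (hvx n)
  have hxn : ∀ n, x n = S (z n (nodeOf n x)) := by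
    intro n
    change v (n + 1) n = _
    rw [hv n, Function.update_self, hnode n]
  have hzx : ∀ n, z n (nodeOf n x) < x n := fun n => by
    conv_rhs => rw [hxn n]
    exact lt_S _
  obtain ⟨b, hb⟩ := bdd fun n => S (x n)
  let p : C := ⟨(fun n => S (x n), b), fun i => (hb i).le⟩
  obtain ⟨q, hq⟩ := hG3 (Pt.c p) (fun n => Pt.col (nodeOf n x) (x n)) (by
    intro n
    refine ⟨U n (nodeOf n x), hU _ _, hz _ _ ?_, hz _ _ ?_⟩
    · refine ⟨fun i hi => ?_, ?_⟩
      · have hi' : i < n := hi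
        rw [nodeOf_seq hi']
      · exact (hzx n).trans (lt_S _)
    · exact ⟨rfl, hzx n⟩)
  have hno : ∀ V : Set Pt, IsOpen V → q ∈ V →
      (∀ᶠ n in atTop, Pt.col (nodeOf n x) (x n) ∉ V) → False := by
    intro V hV hqV h
    exact (mapClusterPt_iff_frequently.1 hq V (hV.mem_nhds hqV)) (h.mono fun n hn h' => hn h')
  rcases q with t | ⟨a, y, h⟩ | ⟨t, j⟩ | ⟨y, a, h⟩ | p'
  · refine hno (BU t ⊥) (isOpen_BU _ _) rfl ?_
    filter_upwards [eventually_gt_atTop t.len] with n hn h'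
    have h1 : nodeOf n x = t := h'.1
    have h2 : n = t.len := by rw [← h1]; rfl
    omega
  · by_cases hxy : y = x
    · subst hxy
      refine hno (BN a x ⊥ 0 a) (isOpen_BN _ _ _ _ _)
        (mem_BN_self _ _ _ _ _ _ (lt_of_lt_of_le (bot_lt_ssup _) h)) ?_
      refine Eventually.of_forall fun n h' => ?_
      exact absurd (lt_of_lt_of_le (lt_ssup _ n) h) (not_lt.2 h'.2.le)
    · obtain ⟨i, hi⟩ := Function.ne_iff.1 hxy
      refine hno (BN a y ⊥ (i + 1) a) (isOpen_BN _ _ _ _ _)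
        (mem_BN_self _ _ _ _ _ _ (lt_of_lt_of_le (bot_lt_ssup _) h)) ?_
      refine Eventually.of_forall fun n h' => ?_
      have h1 : i < n := h'.1.1
      have h2 := h'.1.2.1 i (Nat.lt_succ_self i)
      rw [nodeOf_seq h1] at h2
      exact hi h2.symm
  · refine hno (BC t univ) (isOpen_BC _ _ fun _ _ h => ⟨⊥, h, fun _ _ _ => trivial⟩)
      ⟨rfl, trivial⟩ ?_
    filter_upwards [eventually_gt_atTop t.len] with n hn h'
    have h1 : nodeOf n x = t := h'.1
    have h2 : n = t.len := by rw [← h1]; rfl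
    omega
  · by_cases hxy : y = x
    · subst hxy
      refine hno (BE x a (ssup x) 0) (isOpen_BE _ _ _ _ le_rfl) (mem_BE_self _ _ _ _ _ h) ?_
      refine Eventually.of_forall fun n h' => ?_
      exact absurd (lt_ssup x n) (not_lt.2 h'.2.1.le)
    · obtain ⟨i, hi⟩ := Function.ne_iff.1 hxy
      refine hno (BE y a (ssup y) (i + 1)) (isOpen_BE _ _ _ _ le_rfl)
        (mem_BE_self _ _ _ _ _ h) ?_
      refine Eventually.of_forall fun n h' => ?_
      have h1 : i < n := h'.1.1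
      have h2 := h'.1.2 i (Nat.lt_succ_self i)
      rw [nodeOf_seq h1] at h2
      exact hi h2.symm
  · exact hno (BP univ) (isOpen_BP isOpen_univ) trivial (Eventually.of_forall fun n h' => h')

/-! ### The perfect map -/

/-- The map from the disjoint union of the two pieces onto `Y`. -/
def proj : Y0 ⊕ Y1 → Pt := Sum.elim Subtype.val Subtype.val

theorem proj_continuous : Continuous proj :=
  continuous_subtype_val.sumElim continuous_subtype_val

theorem proj_closed : IsClosedMap proj := by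
  intro F hF
  rw [isClosed_sum_iff] at hF
  have : proj '' F = (Subtype.val '' (Sum.inl ⁻¹' F)) ∪ (Subtype.val '' (Sum.inr ⁻¹' F)) := by
    ext q
    constructor
    · rintro ⟨z | z, hz, rfl⟩
      · exact Or.inl ⟨z, hz, rfl⟩
      · exact Or.inr ⟨z, hz, rfl⟩
    · rintro (⟨z, hz, rfl⟩ | ⟨z, hz, rfl⟩)
      · exact ⟨Sum.inl z, hz, rfl⟩
      · exact ⟨Sum.inr z, hz, rfl⟩
  rw [this]
  exact (isClosed_Y0.isClosedMap_subtype_val _ hF.1).union
    (isClosed_Y1.isClosedMap_subtype_val _ hF.2)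

theorem proj_surjective : Function.Surjective proj := by
  intro q
  cases q with
  | nd t => exact ⟨Sum.inl ⟨Pt.nd t, trivial⟩, rfl⟩
  | pi a x h => exact ⟨Sum.inl ⟨Pt.pi a x h, trivial⟩, rfl⟩
  | col t j => exact ⟨Sum.inr ⟨Pt.col t j, trivial⟩, rfl⟩
  | e x a h => exact ⟨Sum.inr ⟨Pt.e x a h, trivial⟩, rfl⟩
  | c p => exact ⟨Sum.inl ⟨Pt.c p, trivial⟩, rfl⟩

theorem proj_fibre (q : Pt) : (proj ⁻¹' {q}).encard ≤ 2 := by
  have h : proj ⁻¹' {q} ⊆ (Sum.inl '' {z : Y0 | (z : Pt) = q}) ∪ (Sum.inr '' {z : Y1 | (z : Pt) = q}) := by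
    rintro (z | z) hz
    · exact Or.inl ⟨z, hz, rfl⟩
    · exact Or.inr ⟨z, hz, rfl⟩
  have h1 : (Sum.inl '' {z : Y0 | (z : Pt) = q} : Set (Y0 ⊕ Y1)).encard ≤ 1 := by
    rw [Set.encard_le_one_iff]
    rintro a b ⟨z, hz, rfl⟩ ⟨z', hz', rfl⟩
    rw [Subtype.ext ((show (z : Pt) = q from hz).trans (show (z' : Pt) = q from hz').symm)]
  have h2 : (Sum.inr '' {z : Y1 | (z : Pt) = q} : Set (Y0 ⊕ Y1)).encard ≤ 1 := by
    rw [Set.encard_le_one_iff]
    rintro a b ⟨z, hz, rfl⟩ ⟨z', hz', rfl⟩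
    rw [Subtype.ext ((show (z : Pt) = q from hz).trans (show (z' : Pt) = q from hz').symm)]
  refine (Set.encard_le_encard h).trans ((Set.encard_union_le _ _).trans ?_)
  calc _ ≤ (1 : ℕ∞) + 1 := add_le_add h1 h2
    _ = 2 := one_add_one_eq_two

/-- There are Hausdorff spaces `X` and `Y` and a perfect map from `X` onto `Y`, with fibres of at
most two points, such that `X` is a wDelta-space and `Y` is not. -/
theorem result : ∃ (X Y : Type) (_ : TopologicalSpace X) (_ : TopologicalSpace Y) (f : X → Y),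
    T2Space X ∧ T2Space Y ∧ IsWDelta X ∧ IsPerfectMap f ∧ (∀ y, (f ⁻¹' {y}).encard ≤ 2) ∧
      ¬ IsWDelta Y := by
  refine ⟨Y0 ⊕ Y1, Pt, inferInstance, inferInstance, proj, inferInstance, inferInstance,
    wdelta_sum wdelta_Y0 wdelta_Y1, ⟨proj_continuous, proj_closed, proj_surjective, ?_⟩,
    proj_fibre, not_wdelta⟩
  intro q
  have h : (proj ⁻¹' {q}).Finite :=
    Set.finite_of_encard_le_coe (k := 2) (by exact_mod_cast proj_fibre q)
  exact h.isCompact

end Pool.Agent.Results.MP_b40933_gt.PerfectImageWDelta
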